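import Mathlib
import Pool.Agent.Work.MP_fbd347_gt_helper49.Defs
import Pool.Agent.Work.MP_fbd347_gt_helper49.Lemmas
import Pool.Agent.Work.MP_fbd347_gt_helper49.NotLindelof

set_option autoImplicit false

/-!
MP_fbd347_gt, Q1, answered in the negative in a strong form: a pseudocompact Tychonoff space `X`
such that the Hewitt realcompactification of `C_p(X)` is even `K`-analytic, while the Hewitt
realcompactification of `C_p(C_p(X))` is not even a Lindelöf space.
-/

open Set Topology

namespace Pool.Agent.Results.MP_fbd347_gt.KAnalyticNotLindelof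

open Pool.Agent.Work.MP_fbd347_gt_helper49

/-- There is a pseudocompact Tychonoff space `X` such that the Hewitt realcompactification of
`C_p(X)` is `K`-analytic, hence a Lindelöf `Σ`-space, and the Hewitt realcompactification of
`C_p(C_p(X))` is not Lindelöf, hence not a Lindelöf `Σ`-space. -/
theorem result :
    ∃ (X : Type) (_ : TopologicalSpace X), T35Space X ∧
      (∀ f : X → ℝ, Continuous f → ∃ M : ℝ, ∀ x, |f x| ≤ M) ∧
      (∃ (Y : Type) (_ : TopologicalSpace Y) (i : CpSpace X → Y),
        IsHewittRealcompactification i ∧ IsLindelofSigma Y ∧ IsKAnalytic Y) ∧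
      ∃ (Z : Type) (_ : TopologicalSpace Z) (j : CpSpace (CpSpace X) → Z),
        IsHewittRealcompactification j ∧ ¬ IsLindelofSigma Z ∧ ¬ LindelofSpace Z := by
  refine ⟨Pool.Agent.Work.MP_fbd347_gt.XX, inferInstance, inferInstance,
    Pool.Agent.Work.MP_fbd347_gt.XX_bdd, ?_, ?_⟩
  · refine ⟨_, inferInstance, _, hewitt_closure _, ?_, ?_⟩
    · exact (levelOne_KAnalytic Pool.Agent.Work.MP_fbd347_gt.XXGood).isLindelofSigma
    · exact levelOne_KAnalytic Pool.Agent.Work.MP_fbd347_gt.XXGood
  · have hnot : ¬ LindelofSpace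
        (closure (Pool.Agent.Work.MP_fbd347_gt.EV
          (CpSpace (CpSpace Pool.Agent.Work.MP_fbd347_gt.XX)))) := by
      intro h
      exact levelTwo_notLindelof Pool.Agent.Work.MP_fbd347_gt.XXGood
        (isLindelof_iff_lindelofSpace.2 h)
    exact ⟨_, inferInstance, _, hewitt_closure _, fun h => hnot h.lindelofSpace, hnot⟩

end Pool.Agent.Results.MP_fbd347_gt.KAnalyticNotLindelof
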